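import Pool.Agent.H461R2.PD.Twelfth

/-!
# Templates and windows

The counting step of the templates for every interval `(u, u + N]`, with a length `N` that does not
depend on `u`.
-/

namespace Pool.Agent.W59.GB

open Finset Pool.Agent.H461R2.PD

open Classical in
/-- the number of elements of `X` in `(u, u + N]` -/
noncomputable def win (X : Set ℕ) (u N : ℕ) : ℕ := ((Ioc u (u + N)).filter fun s => s ∈ X).card

theorem win_eq (X : Set ℕ) (u N : ℕ) [DecidablePred (· ∈ X)] :
    win X u N = ((Ioc u (u + N)).filter fun s => s ∈ X).card := by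
  unfold win
  congr!

open Classical in
/-- if large templates cannot be extended then many differences are in `D`, in every window -/
theorem step {D : Set ℕ} {Q t : ℕ} (hQ : 0 < Q) {C : (Fin t → ℕ) → Prop}
    {C' : (Fin (t + 1) → ℕ) → Prop} {X : Set ℕ}
    (hext : ∀ r, C r → ∀ x ∈ X, C' (Fin.cons (x % Q) r))
    (ht : ∀ M, TemplC D Q t C M) {K₀ : ℕ} (hK₀ : ¬ TemplC D Q (t + 1) C' K₀)
    {Y : Set ℕ} (hYX : ∀ r, C r → ∀ i, ∀ a d, a ≡ r i [MOD Q] → a + d ∈ X → d ∈ Y)
    {ε : ℝ} (hε : 0 < ε) :
    ∃ N₀ : ℕ, ∀ N ≥ N₀, ∀ u, (win X u N : ℝ) ≤ t * win (D ∩ Y) u N + ε * N := by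
  set M : ℕ := max (K₀ + 1) (K₀ + ⌈2 * t * (K₀ : ℝ) / ε⌉₊) with hM
  have hM1 : K₀ < M := Nat.lt_of_succ_le (le_max_left _ _)
  have hMε : 2 * t * (K₀ : ℝ) ≤ ε * ((M : ℝ) - K₀) := by
    have h1 : K₀ + ⌈2 * t * (K₀ : ℝ) / ε⌉₊ ≤ M := le_max_right _ _
    have h2 : (K₀ : ℝ) + ⌈2 * t * (K₀ : ℝ) / ε⌉₊ ≤ M := by exact_mod_cast h1
    have h3 : 2 * t * (K₀ : ℝ) / ε ≤ (M : ℝ) - K₀ := by
      have := Nat.le_ceil (2 * t * (K₀ : ℝ) / ε)
      linarith
    rw [div_le_iff₀ hε] at h3
    linarith
  obtain ⟨A, r, hCr, hAM, hdis, hbad, hr⟩ := ht M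
  -- a bound for the elements
  obtain ⟨L, hL⟩ : ∃ L, ∀ i, ∀ a ∈ A i, a ≤ L :=
    ⟨univ.sup fun i => (A i).sup id, fun i a ha =>
      (le_sup (f := id) ha).trans (le_sup (f := fun i => (A i).sup id) (mem_univ i))⟩
  set nb : ℕ → Fin t → Finset ℕ := fun x i => (A i).filter fun a => x - a ∉ D with hnb
  set E : ℕ := K₀ * ((∏ i : Fin t, 2 ^ (A i).card) * Q) with hE
  -- few exceptional integers
  have hexc : ∀ u v, L ≤ u → ((Ioc u v).filter fun x => x ∈ X ∧ ∀ i, K₀ ≤ (nb x i).card).card ≤ E := by
    intro u w hLu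
    by_contra hcon
    push Not at hcon
    set Z := (Ioc u w).filter fun x => x ∈ X ∧ ∀ i, K₀ ≤ (nb x i).card with hZ
    have hmaps : ∀ x ∈ Z, (nb x, x % Q) ∈
        (Fintype.piFinset fun i => (A i).powerset) ×ˢ range Q := by
      intro x _
      rw [mem_product, Fintype.mem_piFinset]
      refine ⟨fun i => ?_, mem_range.2 (Nat.mod_lt _ hQ)⟩
      rw [mem_powerset]
      exact filter_subset _ _
    obtain ⟨⟨v, q⟩, _, hv⟩ := exists_lt_card_fiber_of_mul_lt_card_of_maps_to hmaps (n := K₀) (by
      rw [card_product, Fintype.card_piFinset, card_range]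
      simp only [card_powerset]
      calc ((∏ i, 2 ^ (A i).card) * Q) * K₀ = E := by rw [hE, mul_comm]
        _ < Z.card := hcon)
    obtain ⟨Y, hY, hYc⟩ := exists_subset_card_eq hv.le
    -- the fibre is not empty
    obtain ⟨x₀, hx₀⟩ : (Z.filter fun x => (nb x, x % Q) = (v, q)).Nonempty :=
      card_pos.1 (by omega)
    rw [mem_filter] at hx₀
    have hx₀v : nb x₀ = v := (Prod.mk.inj hx₀.2).1
    have hx₀q : x₀ % Q = q := (Prod.mk.inj hx₀.2).2
    have hvK : ∀ i, K₀ ≤ (v i).card := by
      intro i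
      rw [← hx₀v]
      exact (mem_filter.1 hx₀.1).2.2 i
    choose Bs hBs hBc using fun i => exists_subset_card_eq (hvK i)
    have hYv : ∀ y ∈ Y, y ∈ Z ∧ nb y = v ∧ y % Q = q := fun y hy => by simpa using hY hy
    have hvA : ∀ i, v i ⊆ A i := by
      intro i
      rw [← hx₀v]
      exact filter_subset _ _
    have hlt : ∀ i, ∀ b ∈ Bs i, ∀ y ∈ Y, b < y := by
      intro i b hb y hy
      have h1 := hL i b (hvA i (hBs i hb))
      have h2 := (mem_filter.1 (hYv y hy).1).1
      rw [mem_Ioc] at h2
      omega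
    have hbY : ∀ i, ∀ b ∈ Bs i, ∀ y ∈ Y, Bad D b y := by
      intro i b hb y hy
      refine ⟨fun _ => ?_, fun h => absurd (hlt i b hb y hy) (by omega)⟩
      have h1 : b ∈ nb y i := by rw [(hYv y hy).2.1]; exact hBs i hb
      exact (mem_filter.1 h1).2
    apply hK₀
    refine ⟨Fin.cons Y Bs, Fin.cons q r, ?_, ?_, ?_, ?_, ?_⟩
    · rw [← hx₀q]
      exact hext r hCr x₀ (mem_filter.1 hx₀.1).2.1
    · intro i
      refine Fin.cases ?_ (fun i => ?_) i
      · simpa using hYc
      · simpa using hBc i
    · intro i j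
      refine Fin.cases ?_ (fun i => ?_) i <;> refine Fin.cases ?_ (fun j => ?_) j
      · intro h; exact absurd rfl h
      · intro _
        simp only [Fin.cons_zero, Fin.cons_succ]
        rw [disjoint_left]
        intro y hy hb
        exact lt_irrefl _ (hlt j y hb y hy)
      · intro _
        simp only [Fin.cons_zero, Fin.cons_succ]
        rw [disjoint_left]
        intro y hb hy
        exact lt_irrefl _ (hlt i y hb y hy)
      · intro h
        simp only [Fin.cons_succ]
        have hij : i ≠ j := fun h' => h (by rw [h'])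
        exact disjoint_of_subset_left ((hBs i).trans (hvA i))
          (disjoint_of_subset_right ((hBs j).trans (hvA j)) (hdis i j hij))
    · intro i j
      refine Fin.cases ?_ (fun i => ?_) i <;> refine Fin.cases ?_ (fun j => ?_) j
      · intro h; exact absurd rfl h
      · intro _ a ha b hb
        simp only [Fin.cons_zero] at ha
        simp only [Fin.cons_succ] at hb
        exact (hbY j b hb a ha).symm
      · intro _ a ha b hb
        simp only [Fin.cons_succ] at ha
        simp only [Fin.cons_zero] at hb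
        exact hbY i a ha b hb
      · intro h a ha b hb
        simp only [Fin.cons_succ] at ha hb
        have hij : i ≠ j := fun h' => h (by rw [h'])
        exact hbad i j hij a (hvA i (hBs i ha)) b (hvA j (hBs j hb))
    · intro i
      refine Fin.cases ?_ (fun i => ?_) i
      · intro a ha
        simp only [Fin.cons_zero] at ha ⊢
        have h1 := hYv a ha
        rw [← h1.2.2]
        exact (Nat.mod_modEq _ _).symm
      · intro a ha
        simp only [Fin.cons_succ] at ha ⊢
        exact hr i a (hvA i (hBs i ha))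
  -- the double count
  have hmain : ∀ u N : ℕ, ((M : ℝ) - K₀) * ((win X u N : ℝ) - L - E) ≤ t * M * win (D ∩ Y) u N := by
    intro u N
    rw [win_eq, win_eq]
    set dN := (Ioc u (u + N)).filter fun d => d ∈ D ∩ Y with hdN
    set SN := (Ioc u (u + N)).filter fun s => s ∈ X with hSN
    set Z := (Ioc (u + L) (u + N)).filter fun x => x ∈ X ∧ ¬ ∀ i, K₀ ≤ (nb x i).card with hZ
    have hZc : SN.card ≤ Z.card + E + L := by
      have h1 : SN ⊆ (((Ioc (u + L) (u + N)).filter fun x => x ∈ X ∧ ∀ i, K₀ ≤ (nb x i).card) ∪ Z) ∪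
          Ioc u (u + L) := by
        intro s hs
        rw [hSN, mem_filter, mem_Ioc] at hs
        simp only [mem_union, hZ, mem_filter, mem_Ioc]
        by_cases hsL : s ≤ u + L
        · right; exact ⟨hs.1.1, hsL⟩
        · left
          by_cases hc : ∀ i, K₀ ≤ (nb s i).card
          · left; exact ⟨⟨by omega, hs.1.2⟩, hs.2, hc⟩
          · right; exact ⟨⟨by omega, hs.1.2⟩, hs.2, hc⟩
      have h2 := (card_le_card h1).trans ((card_union_le _ _).trans
        (Nat.add_le_add_right (card_union_le _ _) _))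
      rw [Nat.card_Ioc] at h2
      have h3 := hexc (u + L) (u + N) (by omega)
      omega
    have h1 : (M - K₀) * Z.card ≤ ∑ x ∈ Z, ∑ i, ∑ a ∈ A i,
        if x - a ∈ D then 1 else 0 := by
      calc (M - K₀) * Z.card = ∑ _x ∈ Z, (M - K₀) := by simp [mul_comm]
        _ ≤ _ := by
            refine sum_le_sum fun x hx => ?_
            have h2 := (mem_filter.1 hx).2.2
            push Not at h2
            obtain ⟨i, hi⟩ := h2
            refine le_trans ?_ (single_le_sum (f := fun i => ∑ a ∈ A i,
              if x - a ∈ D then 1 else 0) (fun _ _ => Nat.zero_le _) (mem_univ i))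
            rw [← card_filter]
            have h3 := card_filter_add_card_filter_not (s := A i) (fun a => x - a ∈ D)
            rw [hAM i] at h3
            have h4 : ((A i).filter fun a => ¬ x - a ∈ D).card < K₀ := hi
            omega
    have h2 : ∑ x ∈ Z, ∑ i, ∑ a ∈ A i, (if x - a ∈ D then 1 else 0) ≤
        t * M * dN.card := by
      calc _ = ∑ i, ∑ a ∈ A i, ∑ x ∈ Z, (if x - a ∈ D then 1 else 0) := by
            rw [sum_comm]
            exact sum_congr rfl fun i _ => sum_comm
        _ ≤ ∑ i, ∑ _a ∈ A i, dN.card := by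
            refine sum_le_sum fun i _ => sum_le_sum fun a ha => ?_
            rw [← card_filter]
            apply card_le_card_of_injOn (fun x => x - a)
            · intro x hx
              simp only [hZ, coe_filter, mem_filter, Set.mem_ofPred_eq, mem_Ioc] at hx
              have h3 := hL i a ha
              simp only [hdN, coe_filter, Set.mem_ofPred_eq, mem_Ioc]
              refine ⟨⟨by omega, by omega⟩, hx.2, hYX r hCr i a _ (hr i a ha) ?_⟩
              have e : a + (x - a) = x := by omega
              rw [e]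
              exact hx.1.2.1
            · intro x hx y hy hxy
              simp only [hZ, coe_filter, mem_filter, Set.mem_ofPred_eq, mem_Ioc] at hx hy
              have h3 := hL i a ha
              simp only at hxy
              omega
        _ = t * M * dN.card := by
            simp [hAM, mul_assoc]
    have h3 : (M - K₀) * Z.card ≤ t * M * dN.card := h1.trans h2
    have h4 : ((M : ℝ) - K₀) * Z.card ≤ t * M * dN.card := by
      have : ((M - K₀ : ℕ) : ℝ) = (M : ℝ) - K₀ := by rw [Nat.cast_sub hM1.le]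
      rw [← this]
      exact_mod_cast h3
    refine le_trans ?_ h4
    have h5 : (SN.card : ℝ) ≤ Z.card + E + L := by exact_mod_cast hZc
    have h6 : (K₀ : ℝ) < M := by exact_mod_cast hM1
    have h7 : 0 ≤ (M : ℝ) - K₀ := by linarith
    have h8 : (SN.card : ℝ) - L - E ≤ Z.card := by linarith
    exact mul_le_mul_of_nonneg_left h8 h7
  refine ⟨⌈2 * ((L : ℝ) + E) / ε⌉₊, fun N hN u => ?_⟩
  have hNε : 2 * ((L : ℝ) + E) ≤ ε * N := by
    have h1 : 2 * ((L : ℝ) + E) / ε ≤ N := (Nat.le_ceil _).trans (by exact_mod_cast hN)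
    rw [div_le_iff₀ hε] at h1
    linarith
  have h1 := hmain u N
  set d : ℝ := (win (D ∩ Y) u N : ℝ) with hd
  have hd0 : 0 ≤ d := by positivity
  have hdN : d ≤ N := by
    rw [hd]
    have h1 : win (D ∩ Y) u N ≤ (Ioc u (u + N)).card := by
      rw [win_eq]; exact card_filter_le _ _
    rw [Nat.card_Ioc] at h1
    exact_mod_cast (by omega : win (D ∩ Y) u N ≤ N)
  have h6 : 0 < (M : ℝ) - K₀ := by
    have : (K₀ : ℝ) < M := by exact_mod_cast hM1
    linarith
  refine le_of_mul_le_mul_left ?_ h6
  have h2 : t * (K₀ : ℝ) * d ≤ (ε / 2 * ((M : ℝ) - K₀)) * N := by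
    calc t * (K₀ : ℝ) * d ≤ (ε / 2 * ((M : ℝ) - K₀)) * d := by
          apply mul_le_mul_of_nonneg_right _ hd0
          linarith
      _ ≤ _ := by
          apply mul_le_mul_of_nonneg_left hdN
          positivity
  have h3 : ((M : ℝ) - K₀) * ((L : ℝ) + E) ≤ ((M : ℝ) - K₀) * (ε / 2 * N) := by
    apply mul_le_mul_of_nonneg_left _ h6.le
    linarith
  nlinarith

/-- the density of a set of residue classes in a window -/
theorem classes_win {P : ℕ} (hP : 0 < P) {F : Finset ℕ} (hF : ∀ f ∈ F, f < P)
    {X : Set ℕ} (hX : ∀ x, x % P ∈ F → x ∈ X) (u M : ℕ) :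
    (F.card : ℝ) / P * M - P ≤ (win X u M : ℝ) := by
  classical
  have h1 : F.card * (M / P) ≤ win X u M := by
    rw [win_eq, ← card_range (M / P), ← card_product]
    -- the element of `(u + P j, u + P (j + 1)]` in the class `f`
    apply card_le_card_of_injOn (fun x => u + P * x.2 + (1 + (x.1 + P * (u + 1) - (u + 1)) % P))
    · rintro ⟨f, j⟩ h
      simp only [coe_product, Set.mem_prod, mem_coe, mem_range] at h
      obtain ⟨hf, hj⟩ := h
      have h2 : P * (j + 1) ≤ M := (Nat.mul_le_mul_left P hj).trans (Nat.mul_div_le M P)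
      have h3 := Nat.mod_lt (f + P * (u + 1) - (u + 1)) hP
      have h4 : P * (j + 1) = P * j + P := by ring
      simp only [coe_filter, Set.mem_ofPred_eq, mem_Ioc]
      refine ⟨⟨by omega, by omega⟩, hX _ ?_⟩
      have h5 : (u + P * j + (1 + (f + P * (u + 1) - (u + 1)) % P)) % P = f := by
        have h6 : (u + P * j + (1 + (f + P * (u + 1) - (u + 1)) % P)) ≡
            (u + 1) + (f + P * (u + 1) - (u + 1)) [MOD P] := by
          have e : u + P * j + (1 + (f + P * (u + 1) - (u + 1)) % P) =
            P * j + ((u + 1) + (f + P * (u + 1) - (u + 1)) % P) := by ring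
          rw [e]
          have h7 : P * j ≡ 0 [MOD P] := (Nat.modEq_zero_iff_dvd).2 (dvd_mul_right _ _)
          have h8 := h7.add ((Nat.ModEq.refl (u + 1)).add
            (Nat.mod_modEq (f + P * (u + 1) - (u + 1)) P))
          rwa [zero_add] at h8
        have h9 : u + 1 ≤ P * (u + 1) := Nat.le_mul_of_pos_left _ hP
        have h10 : (u + 1) + (f + P * (u + 1) - (u + 1)) = P * (u + 1) + f := by omega
        rw [h10] at h6
        have h11 : P * (u + 1) + f ≡ f [MOD P] := by
          have h7 : P * (u + 1) ≡ 0 [MOD P] := (Nat.modEq_zero_iff_dvd).2 (dvd_mul_right _ _)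
          have := h7.add_right f
          rwa [zero_add] at this
        have h12 := h6.trans h11
        have h13 : _ % P = f % P := h12
        rw [Nat.mod_eq_of_lt (hF f hf)] at h13
        exact h13
      rw [h5]
      exact hf
    · rintro ⟨f, j⟩ h ⟨f', j'⟩ h' hff
      simp only [coe_product, Set.mem_prod, mem_coe, mem_range] at h h' hff
      have g1 := Nat.mod_lt (f + P * (u + 1) - (u + 1)) hP
      have g2 := Nat.mod_lt (f' + P * (u + 1) - (u + 1)) hP
      have g3 : P * j + (f + P * (u + 1) - (u + 1)) % P =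
        P * j' + (f' + P * (u + 1) - (u + 1)) % P := by omega
      have g4 : (f + P * (u + 1) - (u + 1)) % P = (f' + P * (u + 1) - (u + 1)) % P := by
        have := congrArg (· % P) g3
        simpa [Nat.mul_add_mod] using this
      have g5 : f = f' := by
        have h9 : u + 1 ≤ P * (u + 1) := Nat.le_mul_of_pos_left _ hP
        have k1 : (u + 1) + (f + P * (u + 1) - (u + 1)) ≡
            (u + 1) + (f' + P * (u + 1) - (u + 1)) [MOD P] :=
          Nat.ModEq.add_left _ g4
        have h10 : (u + 1) + (f + P * (u + 1) - (u + 1)) = P * (u + 1) + f := by omega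
        have h11 : (u + 1) + (f' + P * (u + 1) - (u + 1)) = P * (u + 1) + f' := by omega
        rw [h10, h11] at k1
        have k2 : f ≡ f' [MOD P] := Nat.ModEq.add_left_cancel' _ k1
        have k3 : f % P = f' % P := k2
        rwa [Nat.mod_eq_of_lt (hF f h.1), Nat.mod_eq_of_lt (hF f' h'.1)] at k3
      subst g5
      have g6 : P * j = P * j' := by omega
      rw [Nat.eq_of_mul_eq_mul_left hP g6]
  have hFP : F.card ≤ P := by
    have : F ⊆ range P := fun f hf => mem_range.2 (hF f hf)
    simpa using card_le_card this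
  have h2 : (M : ℝ) ≤ P * (M / P : ℕ) + P := by
    have : M ≤ P * (M / P) + P := by
      have := Nat.div_add_mod M P
      have := Nat.mod_lt M hP
      omega
    exact_mod_cast this
  have h3 : ((F.card : ℝ)) * (M / P : ℕ) ≤ win X u M := by exact_mod_cast h1
  have hP' : (0 : ℝ) < P := by exact_mod_cast hP
  have h4 : (F.card : ℝ) ≤ P := by exact_mod_cast hFP
  have h5 : (F.card : ℝ) / P * M ≤ (F.card : ℝ) / P * (P * (M / P : ℕ) + P) :=
    mul_le_mul_of_nonneg_left h2 (by positivity)
  have h6 : (F.card : ℝ) / P * (P * (M / P : ℕ) + P) = F.card * (M / P : ℕ) + F.card := by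
    field_simp
  rw [h6] at h5
  linarith

/-- the number of multiples of `15` in a window -/
theorem mult_win (P u M : ℕ) (hP : 0 < P) (X : Set ℕ) (hX : ∀ x ∈ X, P ∣ x) :
    win X u M ≤ M / P + 1 := by
  classical
  rw [win_eq]
  refine le_trans (card_le_card_of_injOn (t := Ioc (u / P) (u / P + (M / P + 1)))
    (fun d => d / P) ?_ ?_) ?_
  · intro d hd
    simp only [coe_filter, mem_Ioc, Set.mem_ofPred_eq, coe_Ioc, Set.mem_Ioc] at hd ⊢
    obtain ⟨⟨h1, h2⟩, h3⟩ := hd
    obtain ⟨e, rfl⟩ := hX d h3
    rw [Nat.mul_div_cancel_left _ hP]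
    constructor
    · rw [Nat.div_lt_iff_lt_mul hP]
      rwa [mul_comm]
    · have k1 := Nat.div_add_mod u P
      have k2 := Nat.mod_lt u hP
      have k3 := Nat.div_add_mod M P
      have k4 := Nat.mod_lt M hP
      have k5 : P * e < P * (u / P + (M / P + 2)) := by
        have : P * (u / P + (M / P + 2)) = P * (u / P) + P * (M / P) + P + P := by ring
        omega
      have := Nat.lt_of_mul_lt_mul_left k5
      omega
  · intro d hd d' hd' hdd
    simp only [coe_filter, mem_Ioc, Set.mem_ofPred_eq] at hd hd' hdd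
    obtain ⟨e, rfl⟩ := hX d hd.2
    obtain ⟨e', rfl⟩ := hX d' hd'.2
    rw [Nat.mul_div_cancel_left _ hP, Nat.mul_div_cancel_left _ hP] at hdd
    rw [hdd]
  · rw [Nat.card_Ioc, Nat.add_sub_cancel_left]

end Pool.Agent.W59.GB
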