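import Pool.Agent.H947R3.GM.Mult
import Pool.Agent.W59.GB.Step
import Pool.Agent.W59.GB.Cls

/-!
# The density of the prime gaps among the multiples of an even number, in every long window
-/

namespace Pool.Agent.W59.GB

open Finset Pool.Agent.H461R2.PD Pool.Agent.H947R3.GM

/-- the conclusion of the ladder -/
theorem density_of_ladder {D X : Set ℕ} {t : ℕ} (ht : t ≤ 4) {c ε : ℝ} (hε : 0 < ε)
    {P : ℕ} (hX : ∀ u M : ℕ, c * M - P ≤ (win X u M : ℝ))
    (h : ∃ N₀ : ℕ, ∀ M ≥ N₀, ∀ u, (win X u M : ℝ) ≤ t * win (D ∩ Set.univ) u M + 2 * ε * M) :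
    ∃ N₀ : ℕ, ∀ M ≥ N₀, ∀ u, (c / 4 - ε) * (M : ℝ) ≤ (win D u M : ℝ) := by
  obtain ⟨N₀, hN₀⟩ := h
  refine ⟨max N₀ ⌈P / (2 * ε)⌉₊, fun M hM u => ?_⟩
  have h1 := hN₀ M ((le_max_left _ _).trans hM) u
  have h2 := hX u M
  rw [Set.inter_univ] at h1
  set d : ℝ := (win D u M : ℝ) with hd
  have hd0 : 0 ≤ d := by positivity
  have ht4 : (t : ℝ) ≤ 4 := by exact_mod_cast ht
  have h8 : (t : ℝ) * d ≤ 4 * d := mul_le_mul_of_nonneg_right ht4 hd0
  have h9 : (P : ℝ) ≤ 2 * ε * M := by
    have h1 : P / (2 * ε) ≤ M :=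
      (Nat.le_ceil _).trans (by exact_mod_cast (le_max_right _ _).trans hM)
    rw [div_le_iff₀ (by positivity)] at h1
    linarith
  linarith

/-- `30 ∣ N`: a quarter of the multiples -/
theorem quarter_mult {N : ℕ} {D : Set ℕ} (h30 : 30 ∣ N)
    (hD : ∃ K : ℕ, 1 ≤ K ∧ ∀ H : Fin 5 → Fin K → ℕ, AdmN N H →
      ∃ g g' i i', g ≠ g' ∧ H g i < H g' i' ∧ H g' i' - H g i ∈ D) {ε : ℝ} (hε : 0 < ε) :
    ∃ N₀ : ℕ, ∀ M ≥ N₀, ∀ u, (1 / 4 - ε) * (M : ℝ) ≤ (win D u M : ℝ) := by
  classical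
  obtain ⟨K, hK, hD⟩ := hD
  set Q : ℕ := (5 * K).factorial with hQdef
  have hQ : 0 < Q := Nat.factorial_pos _
  have hQp : ∀ p, p ≤ 5 * K → p.Prime → p ∣ Q := fun p hp hpp => Nat.dvd_factorial hpp.pos hp
  have h5 : ¬ TemplC D Q 5 (fun _ => True) K := by
    refine not_five hQp hD fun r _ p hp hp5 hpN => absurd ?_ hpN
    refine dvd_trans ?_ h30
    interval_cases p
    · exact absurd hp (by norm_num)
    · exact absurd hp (by norm_num)
    · norm_num
    · norm_num
    · exact absurd hp (by norm_num)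
    · norm_num
  obtain ⟨t, ht4, -, ht, K₀, hK₀⟩ := ladder (C := fun _ _ => True) (s := 1) (by norm_num) h5
    (templ_one _ hQ 0 trivial)
  have h := step (X := Set.univ) (Y := Set.univ) hQ (fun _ _ _ _ => trivial) ht hK₀
    (fun _ _ _ _ _ _ _ => trivial) (show 0 < 2 * ε by positivity)
  refine density_of_ladder (c := 1) (P := 1) ht4 hε (fun u M => ?_) h
  have := classes_win (P := 1) one_pos (F := {0}) (by simp) (X := Set.univ) (by simp) u M
  simpa using this

/-- `6 ∣ N`: a fifth of the multiples -/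
theorem fifth_mult {N : ℕ} {D : Set ℕ} (h6 : 6 ∣ N)
    (hD : ∃ K : ℕ, 1 ≤ K ∧ ∀ H : Fin 5 → Fin K → ℕ, AdmN N H →
      ∃ g g' i i', g ≠ g' ∧ H g i < H g' i' ∧ H g' i' - H g i ∈ D) {ε : ℝ} (hε : 0 < ε) :
    ∃ N₀ : ℕ, ∀ M ≥ N₀, ∀ u, (1 / 5 - ε) * (M : ℝ) ≤ (win D u M : ℝ) := by
  classical
  obtain ⟨K, hK, hD⟩ := hD
  set Q : ℕ := (5 * K).factorial with hQdef
  have hQ : 0 < Q := Nat.factorial_pos _
  have hQp : ∀ p, p ≤ 5 * K → p.Prime → p ∣ Q := fun p hp hpp => Nat.dvd_factorial hpp.pos hp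
  have hQ5 : 5 ∣ Q := (show 5 ∣ (5).factorial by decide).trans
    (Nat.factorial_dvd_factorial (by omega))
  have h5 : ¬ TemplC D Q 5 (S5 5) K := by
    refine not_five hQp hD fun r hr p hp hp5 hpN => ?_
    interval_cases p
    · exact absurd hp (by norm_num)
    · exact absurd hp (by norm_num)
    · exact absurd ((show 2 ∣ 6 by norm_num).trans h6) hpN
    · exact absurd ((show 3 ∣ 6 by norm_num).trans h6) hpN
    · exact absurd hp (by norm_num)
    · exact five_free hr
  by_cases h2 : ∀ M, TemplC D Q 2 (S5 2) M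
  · obtain ⟨t, ht4, -, ht, K₀, hK₀⟩ := ladder (C := S5) (s := 2) (by norm_num) h5 h2
    have h := step (X := Set.univ) (Y := Set.univ) hQ (by
      rintro r ⟨i, j, hij, hrij⟩ x -
      exact ⟨i.succ, j.succ, fun h => hij (Fin.succ_injective _ h), by simpa using hrij⟩) ht hK₀
      (fun _ _ _ _ _ _ _ => trivial) (show 0 < 2 * ε by positivity)
    obtain ⟨N₀, hN₀⟩ := density_of_ladder (c := 1) (P := 1) ht4 hε (fun u M => by
      have := classes_win (P := 1) one_pos (F := {0}) (by simp) (X := Set.univ) (by simp) u M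
      simpa using this) h
    refine ⟨N₀, fun M hM u => (mul_le_mul_of_nonneg_right ?_ (Nat.cast_nonneg _)).trans (hN₀ M hM u)⟩
    linarith
  · push Not at h2
    obtain ⟨K₀, hK₀⟩ := h2
    obtain ⟨N₀, hN₀⟩ := step (D := D) (X := {x | x % 5 = 0}) (C := fun r : Fin 1 → ℕ => r = fun _ => 0)
      (Y := {d | d % 5 = 0}) hQ (by
        rintro r rfl x hx
        refine ⟨0, 1, by decide, ?_⟩
        show (x % Q) ≡ 0 [MOD 5]
        have h1 : (x % Q) % 5 = x % 5 := Nat.mod_mod_of_dvd _ hQ5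
        have h2 : x % 5 = 0 := hx
        unfold Nat.ModEq
        omega) (templ_one D hQ 0 rfl) hK₀ (by
        rintro r rfl i a d ha hd
        have h1 : a % 5 = 0 % 5 := ha.of_dvd hQ5
        have h2 : (a + d) % 5 = 0 := hd
        show d % 5 = 0
        omega) (show 0 < ε / 2 by positivity)
    refine ⟨max N₀ ⌈20 / ε⌉₊, fun M hM u => ?_⟩
    have h1 := hN₀ M ((le_max_left _ _).trans hM) u
    have h2 := classes_win (P := 5) (by norm_num) (F := {0}) (by simp) (X := {x | x % 5 = 0})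
      (by simp) u M
    have h3 : win (D ∩ {d | d % 5 = 0}) u M ≤ win D u M := by
      rw [win_eq, win_eq]
      exact card_le_card (monotone_filter_right _ fun x _ hx => hx.1)
    have h4 : (win (D ∩ {d | d % 5 = 0}) u M : ℝ) ≤ win D u M := by exact_mod_cast h3
    have h5 : (20 : ℝ) ≤ ε * M := by
      have h1 : 20 / ε ≤ M :=
        (Nat.le_ceil _).trans (by exact_mod_cast (le_max_right _ _).trans hM)
      rw [div_le_iff₀ hε] at h1
      linarith
    rw [card_singleton] at h2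
    push_cast at h1 h2
    linarith

/-- `2 ∣ N`: a sixth of the multiples -/
theorem sixth_mult {N : ℕ} {D : Set ℕ} (h2N : 2 ∣ N)
    (hD : ∃ K : ℕ, 1 ≤ K ∧ ∀ H : Fin 5 → Fin K → ℕ, AdmN N H →
      ∃ g g' i i', g ≠ g' ∧ H g i < H g' i' ∧ H g' i' - H g i ∈ D) {ε : ℝ} (hε : 0 < ε) :
    ∃ N₀ : ℕ, ∀ M ≥ N₀, ∀ u, (1 / 6 - ε) * (M : ℝ) ≤ (win D u M : ℝ) := by
  classical
  obtain ⟨K, hK, hD⟩ := hD
  set Q : ℕ := (5 * K).factorial with hQdef
  have hQ : 0 < Q := Nat.factorial_pos _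
  have hQp : ∀ p, p ≤ 5 * K → p.Prime → p ∣ Q := fun p hp hpp => Nat.dvd_factorial hpp.pos hp
  have hQ15 : 15 ∣ Q := (show 15 ∣ (5).factorial by decide).trans
    (Nat.factorial_dvd_factorial (by omega))
  have h5 : ¬ TemplC D Q 5 (S35 5) K := by
    refine not_five hQp hD fun r hr p hp hp5 hpN => ?_
    interval_cases p
    · exact absurd hp (by norm_num)
    · exact absurd hp (by norm_num)
    · exact absurd h2N hpN
    · refine ⟨0, fun g hd => hr.1 g ?_⟩
      rw [zero_add] at hd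
      exact_mod_cast hd
    · exact absurd hp (by norm_num)
    · exact five_free hr.2
  by_cases h2 : ∀ M, TemplC D Q 2 (S35 2) M
  · obtain ⟨t, ht4, -, ht, K₀, hK₀⟩ := ladder (C := S35) (s := 2) (by norm_num) h5 h2
    have h := step (X := {x | ¬ 3 ∣ x}) (Y := Set.univ) hQ (by
      rintro r ⟨h3, i, j, hij, hrij⟩ x hx
      refine ⟨fun i => ?_, i.succ, j.succ, fun h => hij (Fin.succ_injective _ h),
        by simpa using hrij⟩
      refine Fin.cases ?_ (fun i => ?_) i
      · simp only [Fin.cons_zero]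
        have h1 : (x % Q) % 15 = x % 15 := Nat.mod_mod_of_dvd _ hQ15
        have h2 : ¬ 3 ∣ x := hx
        omega
      · simpa using h3 i) ht hK₀
      (fun _ _ _ _ _ _ _ => trivial) (show 0 < 2 * ε by positivity)
    obtain ⟨N₀, hN₀⟩ := density_of_ladder (c := 2 / 3) (P := 3) ht4 hε (fun u M => by
      have := classes_win (P := 3) (by norm_num) (F := {1, 2}) (by simp)
        (X := {x | ¬ 3 ∣ x}) (by
          intro x hx
          simp only [mem_insert, mem_singleton] at hx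
          show ¬ 3 ∣ x
          omega) u M
      have hF : ({1, 2} : Finset ℕ).card = 2 := rfl
      rw [hF] at this
      push_cast at this ⊢
      linarith) h
    refine ⟨N₀, fun M hM u => (mul_le_mul_of_nonneg_right ?_ (Nat.cast_nonneg _)).trans (hN₀ M hM u)⟩
    linarith
  · push Not at h2
    obtain ⟨K₀, hK₀⟩ := h2
    set X : Set ℕ := {x | x % 15 = 1 ∨ x % 15 = 11} with hX
    have hstep : ∀ c, (c = 1 ∨ c = 11) → ∃ N₀ : ℕ, ∀ M ≥ N₀, ∀ u, (win X u M : ℝ) ≤
        (win (D ∩ {d | (c + d) % 15 = 1 ∨ (c + d) % 15 = 11}) u M : ℝ) + ε / 2 * M := by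
      intro c hc
      obtain ⟨N₀, hN₀⟩ := step (D := D) (X := X) (C := fun r : Fin 1 → ℕ => r = fun _ => c)
        (Y := {d | (c + d) % 15 = 1 ∨ (c + d) % 15 = 11}) hQ (by
          rintro r rfl x hx
          have h1 : (x % Q) % 15 = x % 15 := Nat.mod_mod_of_dvd _ hQ15
          have h2 : x % 15 = 1 ∨ x % 15 = 11 := hx
          refine ⟨fun i => ?_, 0, 1, by decide, ?_⟩
          · refine Fin.cases ?_ (fun i => ?_) i
            · simp only [Fin.cons_zero]
              omega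
            · simp only [Fin.cons_succ]
              rcases hc with rfl | rfl <;> decide
          · show (x % Q) ≡ c [MOD 5]
            unfold Nat.ModEq
            rcases hc with rfl | rfl <;> omega) (templ_one D hQ c rfl) hK₀ (by
          rintro r rfl i a d ha hd
          have h1 : a % 15 = c % 15 := ha.of_dvd hQ15
          have h2 : (a + d) % 15 = 1 ∨ (a + d) % 15 = 11 := hd
          show (c + d) % 15 = 1 ∨ (c + d) % 15 = 11
          omega) (show 0 < ε / 2 by positivity)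
      refine ⟨N₀, fun M hM u => ?_⟩
      have := hN₀ M hM u
      rw [Nat.cast_one, one_mul] at this
      exact this
    obtain ⟨N₁, hN₁⟩ := hstep 1 (Or.inl rfl)
    obtain ⟨N₂, hN₂⟩ := hstep 11 (Or.inr rfl)
    refine ⟨max (max N₁ N₂) 2000, fun M hM u => ?_⟩
    have h3 := hN₁ M ((le_max_left _ _).trans ((le_max_left _ _).trans hM)) u
    have h4 := hN₂ M ((le_max_right _ _).trans ((le_max_left _ _).trans hM)) u
    have hM2000 : 2000 ≤ M := (le_max_right _ _).trans hM
    have h6 := classes_win (P := 15) (by norm_num) (F := {1, 11}) (by simp) (X := X) (by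
      intro x hx
      rw [mem_insert, mem_singleton] at hx
      exact hx) u M
    have hF : ({1, 11} : Finset ℕ).card = 2 := rfl
    rw [hF] at h6
    have h7 : win (D ∩ {d | (1 + d) % 15 = 1 ∨ (1 + d) % 15 = 11}) u M +
        win (D ∩ {d | (11 + d) % 15 = 1 ∨ (11 + d) % 15 = 11}) u M ≤ win D u M + (M / 15 + 1) := by
      have h8 : win (D ∩ {d | (11 + d) % 15 = 1 ∨ (11 + d) % 15 = 11}) u M ≤
          win (D ∩ {d | d % 15 = 5}) u M + (M / 15 + 1) := by
        refine le_trans ?_ (Nat.add_le_add_left (mult_win 15 u M (by norm_num) {d | 15 ∣ d}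
          fun x hx => hx) _)
        rw [win_eq, win_eq, win_eq]
        have e1 : ((Ioc u (u + M)).filter fun d =>
            d ∈ D ∩ {d | (11 + d) % 15 = 1 ∨ (11 + d) % 15 = 11}) ⊆
            ((Ioc u (u + M)).filter fun d => d ∈ D ∩ {d | d % 15 = 5}) ∪
              ((Ioc u (u + M)).filter fun d => d ∈ {d | 15 ∣ d}) := by
          intro d hd
          simp only [mem_filter, mem_Ioc, Set.mem_ofPred_eq, mem_union, Set.mem_inter_iff] at hd ⊢
          rcases hd.2.2 with h | h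
          · left; exact ⟨hd.1, hd.2.1, by omega⟩
          · right; exact ⟨hd.1, by omega⟩
        exact (card_le_card e1).trans (card_union_le _ _)
      have h9 : win (D ∩ {d | (1 + d) % 15 = 1 ∨ (1 + d) % 15 = 11}) u M +
          win (D ∩ {d | d % 15 = 5}) u M ≤ win D u M := by
        rw [win_eq, win_eq, win_eq, ← card_union_of_disjoint]
        · apply card_le_card
          intro d hd
          simp only [mem_filter, mem_Ioc, Set.mem_ofPred_eq, mem_union, Set.mem_inter_iff] at hd ⊢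
          rcases hd with h | h
          · exact ⟨h.1, h.2.1⟩
          · exact ⟨h.1, h.2.1⟩
        · rw [disjoint_left]
          intro d hd hd'
          simp only [mem_filter, mem_Ioc, Set.mem_ofPred_eq, Set.mem_inter_iff] at hd hd'
          omega
      omega
    set a₁ := win (D ∩ {d | (1 + d) % 15 = 1 ∨ (1 + d) % 15 = 11}) u M
    set a₂ := win (D ∩ {d | (11 + d) % 15 = 1 ∨ (11 + d) % 15 = 11}) u M
    have h10 : ((a₁ : ℝ) + a₂) ≤ (win D u M : ℝ) + ((M / 15 : ℕ) + 1) := by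
      exact_mod_cast h7
    have h11 : ((M / 15 : ℕ) : ℝ) ≤ M / 15 := Nat.cast_div_le
    have h12 : (2000 : ℝ) ≤ M := by exact_mod_cast hM2000
    push_cast at h6
    linarith

end Pool.Agent.W59.GB
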